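import Pool.Agent.helper80.HM.All2

set_option autoImplicit false

/-!
# Hereditarily monotone circuits: a threshold for the nesting of non-monotone gates

The gates are ARBITRARY Boolean functions of at most `a` wires (inputs or earlier gates); the circuit
is hereditarily monotone (`HerMono C t`) if every wire computes a monotone function of the input and
every path contains at most `t` alternating gates, that is gates whose function takes the values
`0, 1, 0, 1` on some increasing sequence of points. The number of alternating gates is not bounded,
and nothing is demanded of the gate functions. (With fan-in `2` these are the monotone circuits. The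
selector `if s then F else G` is alternating.)

The half clique language `HC` (`HC n`: a graph on `√n` vertices has a clique with `√n / 2` vertices)
has the following threshold.

(1) Let the fan-in be `lg n + 3`. If the nesting is `t(n) ≥ 2 lg n / lg lg n` for all large `n`, then
`HC` has hereditarily monotone circuits of polynomial size if and only if NP/Poly = P/Poly.
(2) For every `e` there is `C` such that for `n ≥ C`, fan-in at most `(lg n) ^ e` and nesting `t` with
`C (t + 1) lg lg n < lg n` the hereditarily monotone circuits for `HC n` have more than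
`2 ^ (2 ^ (lg n / (C (t + 1))))`, i.e. `2 ^ (n ^ (1 / (C (t + 1))))`, gates. In particular `HC` has no
hereditarily monotone circuits of fan-in `lg n + 3` and polynomial size if
`C (t(n) + 1) lg lg n < lg n` for infinitely many `n`.
-/

namespace Pool.Agent.Results.MP_069684_lc.HereditarilyMonotone

open Pool.Agent.HM Pool.Agent.helper38.Neg Pool.Agent.helper55.NT
open Pool.Agent.LN (HC)

theorem result :
    -- (1) with nesting 2 lg n / lg lg n
    (∀ t : ℕ → ℕ, (∃ n0, ∀ n ≥ n0, 2 * lg n ≤ t n * lg (lg n)) →
      ((∀ A, InNPPoly A → InPPoly A) ↔ HMPoly (fun n => lg n + 3) t HC)) ∧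
    -- (2) with nesting less than lg n / (C lg lg n)
    (∀ e : ℕ, ∃ C : ℕ, ∀ n ≥ C, ∀ (a t s : ℕ) (c : HCircuit a n s) (o : Fin (n + s)),
      1 ≤ a → a ≤ lg n ^ e → C * (t + 1) * lg (lg n) < lg n → HerMono c t →
      (∀ x, c.val x o = true ↔ HC n x) → 2 ^ 2 ^ (lg n / (C * (t + 1))) < s) ∧
    ∃ C : ℕ, ∀ t : ℕ → ℕ, (∀ n0, ∃ n ≥ n0, C * (t n + 1) * lg (lg n) < lg n) →
      ¬ HMPoly (fun n => lg n + 3) t HC :=
  ⟨all_THH.1, all_HCX, all_THH.2⟩

end Pool.Agent.Results.MP_069684_lc.HereditarilyMonotone
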